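import Pool.Agent.Lib.MP_6bc78b_nt.MS.GL.Iface
import Pool.Agent.Lib.MP_6bc78b_nt.MS.P1.PT.Gam

/-! Project MS, Part GL, module XGR (helper5): the logarithmic derivative of xi to the right
of `3/2`. -/

set_option autoImplicit false

open Complex Filter Topology MeasureTheory ArithmeticFunction

namespace Pool.Agent.Lib.MP_6bc78b_nt.MS.GL.H5

open Pool.Agent.Lib.MP_6bc78b_nt Pool.Agent.Lib.MP_6bc78b_nt.LL Pool.Agent.Lib.MP_6bc78b_nt.MS
  Pool.Agent.Lib.MP_6bc78b_nt.MS.P1 Pool.Agent.Lib.MP_6bc78b_nt.H11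

lemma sum_sq_le (n : ℕ) :
    ∑ k ∈ Finset.range (n + 1), 1 / ((k : ℝ) + 3 / 4) ^ 2 ≤ 4 - 1 / ((n : ℝ) + 5 / 4) := by
  induction n with
  | zero => norm_num
  | succ n ih =>
    rw [Finset.sum_range_succ]
    have h0 : (0 : ℝ) ≤ n := Nat.cast_nonneg n
    have h1 : 1 / (((n + 1 : ℕ) : ℝ) + 3 / 4) ^ 2 ≤
        1 / ((n : ℝ) + 5 / 4) - 1 / (((n + 1 : ℕ) : ℝ) + 5 / 4) := by
      push_cast
      rw [div_sub_div _ _ (by positivity) (by positivity), div_le_div_iff₀ (by positivity)
        (by positivity)]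
      nlinarith
    linarith

/-- the digamma function to the right of `3/4`. -/
theorem digamma_sub_log_le {s : ℂ} (hs : 3 / 4 ≤ s.re) :
    ‖logDeriv Gamma s - Complex.log s‖ ≤ 4 := by
  have hs' : 0 < s.re := by linarith
  have hs0 : s ≠ 0 := by rintro rfl; simp at hs'
  have hlim := (digamma_tendsto hs').sub_const (Complex.log s)
  have hlog : Tendsto (fun n : ℕ => Complex.log (s + (n + 1 : ℕ)) - (Real.log n : ℂ)) atTop (𝓝 0) := by
    have h1 : Tendsto (fun n : ℕ => Complex.log (1 + (s + 1) / n)) atTop (𝓝 (Complex.log (1 + 0))) := by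
      apply Tendsto.clog
      · apply Tendsto.const_add
        have : Tendsto (fun n : ℕ => (s + 1) * ((n : ℂ))⁻¹) atTop (𝓝 ((s + 1) * 0)) :=
          (tendsto_inv_atTop_nhds_zero_nat (𝕜 := ℂ)).const_mul _
        simpa [div_eq_mul_inv] using this
      · simp
    rw [add_zero, log_one] at h1
    refine h1.congr' ?_
    filter_upwards [eventually_gt_atTop 0] with n hn
    have hn' : (0:ℝ) < n := by exact_mod_cast hn
    have hne : (1 + (s + 1) / n : ℂ) ≠ 0 := by
      intro h
      have h2 := congrArg (fun z : ℂ => z * n) h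
      have hnc : (n : ℂ) ≠ 0 := by exact_mod_cast hn.ne'
      simp only [add_mul, div_mul_cancel₀ _ hnc, zero_mul, one_mul] at h2
      have h3 := congrArg Complex.re h2
      simp at h3
      linarith
    have e : s + ((n + 1 : ℕ) : ℂ) = ((n : ℝ) : ℂ) * (1 + (s + 1) / n) := by
      have hnc : (n : ℂ) ≠ 0 := by exact_mod_cast hn.ne'
      push_cast
      field_simp
      ring
    rw [e, log_ofReal_mul hn' hne]
    ring
  have hlim2 := hlim.add hlog
  rw [add_zero] at hlim2
  refine le_of_tendsto hlim2.norm ?_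
  refine Filter.Eventually.of_forall fun n => ?_
  have e : ((Real.log n : ℂ) - ∑ k ∈ Finset.range (n + 1), 1 / (s + k) - Complex.log s) +
      (Complex.log (s + (n + 1 : ℕ)) - (Real.log n : ℂ)) =
      ∑ k ∈ Finset.range (n + 1), ((Complex.log (s + k + 1) - Complex.log (s + k)) - 1 / (s + k)) := by
    rw [Finset.sum_sub_distrib]
    have htel : ∑ k ∈ Finset.range (n + 1), (Complex.log (s + k + 1) - Complex.log (s + k)) =
        Complex.log (s + (n + 1 : ℕ)) - Complex.log s := by
      have := Finset.sum_range_sub (fun k : ℕ => Complex.log (s + k)) (n + 1)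
      simp only [Nat.cast_zero, add_zero] at this
      rw [← this]
      apply Finset.sum_congr rfl
      intro k _
      push_cast
      rw [add_assoc]
    rw [htel]
    ring
  rw [e]
  calc ‖∑ k ∈ Finset.range (n + 1), ((Complex.log (s + k + 1) - Complex.log (s + k)) - 1 / (s + k))‖
      ≤ ∑ k ∈ Finset.range (n + 1), 1 / ((k : ℝ) + 3 / 4) ^ 2 := by
        apply norm_sum_le_of_le
        intro k _
        have hk0 : (0:ℝ) ≤ k := Nat.cast_nonneg k
        have hre : (s + k).re = s.re + k := by simp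
        have hk : 0 < (s + k).re := by rw [hre]; linarith
        refine (log_step hk).trans ?_
        apply one_div_le_one_div_of_le (by positivity)
        have h1 : (k : ℝ) + 3 / 4 ≤ ‖s + k‖ := by
          have := Complex.re_le_norm (s + k)
          rw [hre] at this
          linarith
        exact pow_le_pow_left₀ (by linarith) h1 2
    _ ≤ 4 - 1 / ((n : ℝ) + 5 / 4) := sum_sq_le n
    _ ≤ 4 := by
        have : 0 ≤ 1 / ((n : ℝ) + 5 / 4) := by positivity
        linarith

lemma one_le_log {x : ℝ} (hx : 0 ≤ x) : 1 ≤ Real.log (3 + x) := by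
  rw [Real.le_log_iff_exp_le (by linarith)]
  have := Real.exp_one_lt_d9
  linarith

/-- `ψ(s/2)` for `Re s ≥ 3/2`. -/
lemma digamma_half {s : ℂ} (hs : 3 / 2 ≤ s.re) :
    ‖logDeriv Gamma (s / 2)‖ ≤ 9 * Real.log (3 + ‖s‖) := by
  have h2re : (s / 2).re = s.re / 2 := by simp
  have h1 := digamma_sub_log_le (s := s / 2) (by rw [h2re]; linarith)
  have hL := one_le_log (norm_nonneg s)
  have hn2 : ‖s / 2‖ = ‖s‖ / 2 := by
    rw [norm_div]
    norm_num
  have hns : 3 / 2 ≤ ‖s‖ := hs.trans (Complex.re_le_norm s)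
  have h2 : ‖Complex.log (s / 2)‖ ≤ Real.log (3 + ‖s‖) + 4 := by
    refine (Complex.norm_le_abs_re_add_abs_im _).trans ?_
    have h3 : |(Complex.log (s / 2)).re| ≤ Real.log (3 + ‖s‖) := by
      rw [Complex.log_re, hn2, abs_le]
      constructor
      · have h4 : Real.log (3 / 4) ≤ Real.log (‖s‖ / 2) :=
          Real.log_le_log (by norm_num) (by linarith)
        have h5 : -1 ≤ Real.log (3 / 4) := by
          have := Real.one_sub_inv_le_log_of_pos (show (0:ℝ) < 3 / 4 by norm_num)
          norm_num at this ⊢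
          linarith
        linarith
      · exact Real.log_le_log (by linarith) (by linarith [norm_nonneg s])
    have h4 : |(Complex.log (s / 2)).im| ≤ 4 := by
      rw [Complex.log_im]
      exact (Complex.abs_arg_le_pi _).trans Real.pi_lt_four.le
    exact add_le_add h3 h4
  have h3 : logDeriv Gamma (s / 2) = (logDeriv Gamma (s / 2) - Complex.log (s / 2)) + Complex.log (s / 2) := by
    ring
  rw [h3]
  refine (norm_add_le _ _).trans ?_
  linarith

/-- XGR. -/
theorem xgr : XgrStatement := by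
  obtain ⟨Lm, hLm⟩ : ∃ Lm : ℕ → ℂ, Lm = fun n => ((vonMangoldt n : ℝ) : ℂ) := ⟨_, rfl⟩
  have hS2 : Summable (fun n => ‖LSeries.term Lm (3 / 2 : ℝ) n‖) := by
    have h2 : LSeriesSummable (fun n => ((vonMangoldt n : ℝ) : ℂ)) (3 / 2 : ℝ) :=
      LSeriesSummable_vonMangoldt (by simp; norm_num)
    rw [← hLm] at h2
    exact h2.norm
  obtain ⟨B, hB⟩ : ∃ B : ℝ, B = ∑' n, ‖LSeries.term Lm (3 / 2 : ℝ) n‖ := ⟨_, rfl⟩
  have hB0 : 0 ≤ B := by rw [hB]; exact tsum_nonneg fun n => norm_nonneg _
  refine ⟨B + 20, by linarith, fun s hs => ⟨xi_ne_zero_of_one_le (by linarith), ?_⟩⟩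
  have hs1 : s ≠ 1 := by
    rintro rfl
    norm_num at hs
  have hz : riemannZeta s ≠ 0 := riemannZeta_ne_zero_of_one_le_re (by linarith)
  have hzb : ‖logDeriv riemannZeta s‖ ≤ B := by
    have h := LSeries_vonMangoldt_eq_deriv_riemannZeta_div (s := s) (by linarith)
    have hld : logDeriv riemannZeta s = -∑' n, LSeries.term Lm s n := by
      rw [logDeriv_apply, hLm]
      rw [LSeries] at h
      rw [h]; ring
    have hle : ∀ n, ‖LSeries.term Lm s n‖ ≤ ‖LSeries.term Lm (3 / 2 : ℝ) n‖ := fun n =>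
      LSeries.norm_term_le_of_re_le_re Lm (by simpa using hs) n
    have hS3 : Summable (fun n => ‖LSeries.term Lm s n‖) :=
      Summable.of_nonneg_of_le (fun n => norm_nonneg _) hle hS2
    rw [hld, norm_neg, hB]
    exact (norm_tsum_le_tsum_norm hS3).trans (hS3.tsum_le_tsum hle hS2)
  have hL := one_le_log (norm_nonneg s)
  have hψ := digamma_half hs
  have h1 : ‖1 / s‖ ≤ 1 := by
    rw [norm_div, norm_one]
    have := hs.trans (Complex.re_le_norm s)
    rw [div_le_one (by linarith)]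
    linarith
  have h2 : ‖1 / (s - 1)‖ ≤ 2 := by
    rw [norm_div, norm_one]
    have h3 : (1 : ℝ) / 2 ≤ ‖s - 1‖ := by
      have := Complex.re_le_norm (s - 1)
      simp only [Complex.sub_re, Complex.one_re] at this
      linarith
    rw [div_le_iff₀ (by linarith)]
    linarith
  have h3 : ‖-(Real.log Real.pi : ℂ) / 2‖ ≤ 2 := by
    rw [norm_div, norm_neg, Complex.norm_real, Real.norm_eq_abs]
    have h4 : 0 ≤ Real.log Real.pi := Real.log_nonneg (by linarith [Real.pi_gt_three])
    have h5 : Real.log Real.pi ≤ Real.pi - 1 := Real.log_le_sub_one_of_pos Real.pi_pos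
    rw [abs_of_nonneg h4]
    have h6 : ‖(2 : ℂ)‖ = 2 := by norm_num
    rw [h6]
    linarith [Real.pi_lt_four]
  have h4 : ‖logDeriv Complex.Gamma (s / 2) / 2‖ ≤ 9 / 2 * Real.log (3 + ‖s‖) := by
    rw [norm_div]
    have h6 : ‖(2 : ℂ)‖ = 2 := by norm_num
    rw [h6]
    linarith
  rw [logDeriv_xi_eq (by linarith) hs1 hz, gPart, PT.logDeriv_Gammaℝ_eq (by linarith)]
  have h5 : ‖1 / s + 1 / (s - 1) + (-(Real.log Real.pi : ℂ) / 2 +
      logDeriv Complex.Gamma (s / 2) / 2) + logDeriv riemannZeta s‖ ≤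
      (1 + 2 + (2 + 9 / 2 * Real.log (3 + ‖s‖))) + B := by
    refine (norm_add_le _ _).trans (add_le_add ?_ hzb)
    refine (norm_add_le _ _).trans (add_le_add ?_ ?_)
    · exact (norm_add_le _ _).trans (add_le_add h1 h2)
    · exact (norm_add_le _ _).trans (add_le_add h3 h4)
  refine h5.trans ?_
  nlinarith

end Pool.Agent.Lib.MP_6bc78b_nt.MS.GL.H5
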